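import Pool.Agent.H.MP_07717f_lc.Grp
import Pool.Agent.Lib.helper13.KAPI

namespace Pool.Agent.H.MP_07717f_lc

open Classical Pool.Agent.Lib.PR Pool.Agent.Lib.KAPI Nat.Partrec Encodable

attribute [local irreducible] Primrec Computable

abbrev Tm := List (Bool × ℕ × ℕ)

noncomputable def val (L : Tm) : V :=
  (L.map fun x => Finsupp.single ((x.2.1 : ℤ) - x.2.2) (if x.1 then 1 else -1)).sum

def ng (L : Tm) : Tm := L.map fun x => (!x.1, x.2)

def cnt (b : Bool) (L : Tm) (p m : ℕ) : ℕ := L.countP fun x => x.1 == b && x.2.1 + m == x.2.2 + p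

theorem val_cons (x L) :
    val (x :: L) = .single ((x.2.1 : ℤ) - x.2.2) (if x.1 then 1 else -1) + val L := by simp [val]

theorem val_app (L L') : val (L ++ L') = val L + val L' := by simp [val]

theorem val_ng (L) : val (ng L) = - val L := by
  induction L with
  | nil => simp [val, ng]
  | cons x L ih =>
    rw [ng, List.map_cons, val_cons, val_cons, ← ng, ih, neg_add, ← Finsupp.single_neg]
    cases x.1 <;> simp

theorem val_ap (L) (p m : ℕ) : val L (p - m) = cnt true L p m - cnt false L p m := by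
  induction L with
  | nil => simp [val, cnt]
  | cons x L ih =>
    obtain ⟨b, i, j⟩ := x
    rw [val_cons, Finsupp.add_apply, ih, Finsupp.single_apply]
    simp only [cnt, List.countP_cons]
    by_cases h : i + m = j + p
    · rw [if_pos (by omega)]
      cases b <;> simp [h] <;> ring
    · rw [if_neg (by omega)]
      simp [h]

def step (l : Fin 3 × Bool) (s : Tm × Tm) : Tm × Tm :=
  if l.1 = 0 then (s.1 ++ (if l.2 = true then s.2 else ng s.2), s.2)
  else if l.1 = 1 then (s.1, (l.2, 0, 0) :: s.2)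
  else (s.1, s.2.map fun x => if l.2 = true then (x.1, x.2.1 + 1, x.2.2) else (x.1, x.2.1, x.2.2 + 1))

def st (w : List (Fin 3 × Bool)) : Tm × Tm := w.foldr step ([], [])

theorem val_sh (L) : val (L.map fun x => (x.1, x.2.1 + 1, x.2.2)) = sh (val L) := by
  induction L with
  | nil => simp [val]
  | cons x L ih =>
    rw [List.map_cons, val_cons, val_cons, ih, map_add, sh_single]
    congr 2
    push_cast
    ring

theorem val_sh' (L) : val (L.map fun x => (x.1, x.2.1, x.2.2 + 1)) = sh.symm (val L) := by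
  induction L with
  | nil => simp [val]
  | cons x L ih =>
    rw [List.map_cons, val_cons, val_cons, ih, map_add, sh_symm]
    congr 2
    push_cast
    ring

theorem ac_st (w) : ac (.mk w) 0 = (val (st w).1, val (st w).2) := by
  induction w with
  | nil => simp [st, val, ← FreeGroup.one_eq_mk, Prod.ext_iff]
  | cons l w ih =>
    rw [show l :: w = [l] ++ w from rfl, ← FreeGroup.mul_mk, map_mul, Equiv.Perm.mul_apply, ih]
    obtain ⟨i, b⟩ := l
    rw [show st ([(i, b)] ++ w) = step (i, b) (st w) from rfl]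
    fin_cases i <;> cases b <;>
      simp [ac, act, step, gA, gB, gT, Equiv.Perm.inv_def, val_app, val_ng, val_cons, val_sh,
        val_sh', sub_eq_add_neg, add_comm]

@[fun_prop] theorem p_ng {α : Type} [Primcodable α] {f : α → Tm} (hf : Primrec f) :
    Primrec fun a => ng (f a) := by
  unfold ng
  fun_prop

@[fun_prop] theorem p_st : Primrec st := by
  unfold st step
  fun_prop

@[fun_prop] theorem p_cnt {α : Type} [Primcodable α] {b : Bool} {f : α → Tm} {p m : α → ℕ}
    (hf : Primrec f) (hp : Primrec p) (hm : Primrec m) :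
    Primrec fun a => cnt b (f a) (p a) (m a) := by
  unfold cnt
  fun_prop

def ev (e t k n x : ℕ) : Option ℕ := Code.evaln t (Denumerable.ofNat Code e) (encode (k, n, x))

def P1 (e t : ℕ) : Prop := (ev e t (2 ^ (2 * e)) 1 t.unpair.1).isSome = true ∧
  ev e t (2 ^ (2 * e)) 1 t.unpair.1 ≠ some t.unpair.1

def P2 (e s t : ℕ) : Prop := ev e t (2 ^ (2 * e + 1)) (s + 1) s.unpair.1 = some s.unpair.1

noncomputable def vv (e : ℕ) : ℕ × ℕ :=
  if h : ∃ t, P1 e t then
    if k : ∃ t, P2 e (Nat.find h) t then (1, (Nat.find h + 1) * (Nat.find k + 1))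
    else (0, Nat.find h + 1)
  else (0, 0)

theorem vv_fst (e) : (vv e).1 = 0 ∨ (vv e).1 = 1 := by
  unfold vv
  split_ifs <;> simp

def NI (e a a' b b' : ℕ) : Prop :=
  ((a ≠ a' ∨ b ≠ b') ∧ ∀ t ≤ b + b', ¬ P1 e t) ∨ ∃ s, (P1 e s ∧ ∀ t < s, ¬ P1 e t) ∧
    (((a ≠ a' ∨ b % (s + 1) ≠ b' % (s + 1)) ∧ ∀ t ≤ b + b', ¬ P2 e s t) ∨
      ∃ r, P2 e s r ∧ (∀ t < r, ¬ P2 e s t) ∧
        b + a' * ((s + 1) * (r + 1)) ≠ b' + a * ((s + 1) * (r + 1)))

theorem ml_big {v : ℕ × ℕ} {a a' b b' : ℕ} (h : b + b' < v.2) (k : Ml v (a - a') (b - b')) :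
    a = a' ∧ b = b' := by
  obtain ⟨j, h1, h2⟩ := k
  have := Int.eq_zero_of_abs_lt_dvd (Dvd.intro_left j h2.symm) (by rw [abs_lt]; omega)
  obtain rfl : j = 0 := by
    rw [this, eq_comm, mul_eq_zero] at h2
    omega
  omega

theorem ml0 {n a a' b b' : ℕ} : Ml (0, n) (a - a') (b - b') ↔ a = a' ∧ b % n = b' % n := by
  rw [eq_comm (a := b % n), ← Nat.ModEq, Nat.modEq_iff_dvd]
  exact ⟨fun ⟨j, h, k⟩ => ⟨by simp at h; omega, j, by rw [k, mul_comm]⟩,
    fun ⟨h, j, k⟩ => ⟨j, by simp [h], by rw [k, mul_comm]⟩⟩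

theorem ml1 {n a a' b b' : ℕ} : Ml (1, n) (a - a') (b - b') ↔ b + a' * n = b' + a * n := by
  zify
  exact ⟨fun ⟨j, h, k⟩ => by simp at h k; rw [← h] at k; linarith,
    fun h => ⟨a - a', by simp, by simp only; linarith⟩⟩

theorem ni_iff {e a a' b b'} : NI e a a' b b' ↔ ¬ Ml (vv e) (a - a') (b - b') := by
  by_cases h : ∃ t, P1 e t
  · have f : ∀ s, (P1 e s ∧ ∀ t < s, ¬ P1 e t) ↔ s = Nat.find h := fun s => by
      rw [eq_comm, Nat.find_eq_iff]
    simp only [NI, f, exists_eq_left]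
    by_cases k : ∃ t, P2 e (Nat.find h) t
    · have e1 : vv e = (1, (Nat.find h + 1) * (Nat.find k + 1)) := by simp only [vv, h, k, dif_pos]
      refine ⟨?_, fun c => .inr (.inr ⟨_, Nat.find_spec k, fun t => Nat.find_min k,
        by rwa [e1, ml1] at c⟩)⟩
      rintro (⟨c, d⟩ | ⟨c, d⟩ | ⟨r, c, d, d'⟩) m
      · have := ml_big (by
          have := not_le.1 fun c => d _ c (Nat.find_spec h)
          rw [e1]
          nlinarith) m
        omega
      · obtain ⟨rfl, rfl⟩ := ml_big (by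
          have := not_le.1 fun c => d _ c (Nat.find_spec k)
          rw [e1]
          nlinarith) m
        simp at c
      · rw [e1, ml1, (Nat.find_eq_iff k).2 ⟨c, d⟩] at m
        exact d' m
    · have e1 : vv e = (0, Nat.find h + 1) := by simp only [vv, h, k, dif_pos, dif_neg, not_false_iff]
      refine ⟨?_, fun c => .inr (.inl ⟨by rwa [e1, ml0, not_and_or] at c, fun t _ c => k ⟨t, c⟩⟩)⟩
      rintro (⟨c, d⟩ | ⟨c, -⟩ | ⟨r, c, -⟩) m
      · have := ml_big (by
          have := not_le.1 fun c => d _ c (Nat.find_spec h)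
          rw [e1]
          omega) m
        omega
      · rw [e1, ml0] at m
        omega
      · exact k ⟨r, c⟩
  · rw [show vv e = (0, 0) from dif_neg h, ml0, not_and_or, Nat.mod_zero, Nat.mod_zero]
    exact ⟨fun c => c.elim And.left fun ⟨s, c, _⟩ => (h ⟨s, c.1⟩).elim,
      fun c => .inl ⟨c, fun t _ c => h ⟨t, c⟩⟩⟩

section
variable {α : Type} [Primcodable α] {e a a' b b' : α → ℕ}

@[fun_prop] theorem p_P1 (he : Primrec e) (ha : Primrec a) : Primrec fun x => cd (P1 (e x) (a x)) := by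
  unfold P1 ev
  fun_prop

@[fun_prop] theorem p_P2 (he : Primrec e) (ha : Primrec a) (hb : Primrec b) :
    Primrec fun x => cd (P2 (e x) (a x) (b x)) := by
  unfold P2 ev
  fun_prop

theorem re_ni (he : Primrec e) (ha : Primrec a) (ha' : Primrec a') (hb : Primrec b)
    (hb' : Primrec b') : REPred fun x => NI (e x) (a x) (a' x) (b x) (b' x) :=
  re_or (re_prim (by fun_prop)) (re_exists (re_and (re_prim (by fun_prop))
    (re_or (re_prim (by fun_prop)) (re_exists (re_prim (by fun_prop))))))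
end

theorem re_nu : REPred fun L : Tm => val L ∉ UU vv := by
  refine (re_or (re_exists (R := fun L (k : ℕ × ℕ) => k.1 ≠ k.2 ∧ (∀ j < k.1, k.1 ≠ k.2 + 2 ^ j) ∧
    cnt true L k.1 k.2 ≠ cnt false L k.1 k.2) (re_prim (by fun_prop)))
    (re_exists (R := fun L e => NI e (cnt true L (2 ^ (2 * e)) 0) (cnt false L (2 ^ (2 * e)) 0)
      (cnt true L (2 ^ (2 * e + 1)) 0) (cnt false L (2 ^ (2 * e + 1)) 0))
      (re_ni (by fun_prop) (by fun_prop) (by fun_prop) (by fun_prop) (by fun_prop)))).of_eq fun L => ?_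
  refine Iff.trans (or_congr ⟨?_, fun h => ?_⟩ ?_) not_and_or.symm
  · rintro ⟨k, h1, h2, h3⟩ h
    have := h (k.1 - k.2) (by omega) fun j c => h2 j (by
      have := j.lt_two_pow_self
      zify at this ⊢
      omega) (by zify; omega)
    rw [val_ap] at this
    omega
  · push Not at h
    obtain ⟨k, h1, h2, h3⟩ := h
    rw [← Int.toNat_sub_toNat_neg k, val_ap] at h3
    refine ⟨(k.toNat, (-k).toNat), by dsimp only; omega, fun j _ c => h2 j ?_, by dsimp only; omega⟩
    zify at c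
    omega
  · rw [not_forall]
    refine exists_congr fun e => ?_
    rw [ni_iff, ← val_ap, ← val_ap]
    simp

theorem re_wp : REPred fun w : List (Fin 3 × Bool) => FreeGroup.mk w ∉ Kf Z (UU vv) := by
  refine (re_exists (R := fun w (p : List (Fin 3 × Bool) × List (Fin 3 × Bool)) =>
    val ((st (p.1 ++ w ++ p.2)).1 ++ ng (st (p.1 ++ p.2)).1) ∉ UU vv)
    (re_cmp re_nu _ (by fun_prop))).of_eq fun w => ?_
  have : ∀ u v, val ((st (u ++ w ++ v)).1 ++ ng (st (u ++ v)).1) =
      Z (.mk u * .mk w * .mk v) - Z (.mk u * .mk v) := fun u v => by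
    simp only [val_app, val_ng, Z, FreeGroup.mul_mk, ac_st, sub_eq_add_neg]
  simp only [this]
  refine ⟨fun ⟨p, h⟩ k => h (k _ _), fun h => by_contra fun c => h fun u v => ?_⟩
  induction u using Quot.inductionOn
  induction v using Quot.inductionOn
  exact not_not.1 fun k => c ⟨(_, _), k⟩

section
variable (σ : F →* Equiv.Perm ℕ) {α : Type} [Primcodable α]

def Cp (g : α → F) : Prop := Computable fun p : α × ℕ => σ (g p.1) p.2

variable {σ}

theorem Cp.mul {g h : α → F} (a : Cp σ g) (b : Cp σ h) : Cp σ fun x => g x * h x :=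
  (c_comp (g := fun p : α × ℕ => (p.1, σ (h p.1) p.2)) a (c_pair (by fun_prop) b)).of_eq
    fun _ => by simp

theorem Cp.pow {g : α → F} {n : α → ℕ} (a : Cp σ g) (b : Computable n) :
    Cp σ fun x => g x ^ n x :=
  (Computable.nat_rec (f := fun p : α × ℕ => n p.1) (g := fun p => p.2)
    (h := fun p q => σ (g p.1) q.2) (by fun_prop) (by fun_prop)
    (c_comp (g := fun p : (α × ℕ) × ℕ × ℕ => (p.1.1, p.2.2)) a (by fun_prop))).of_eq fun p => by
      dsimp only
      induction n p.1 with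
      | zero => simp
      | succ k ih => simp [pow_succ', ← ih, - map_pow, map_mul]
end

theorem no_emb (σ : F →* Equiv.Perm ℕ) (h : ∀ w, σ w = 1 ↔ w ∈ Kf Z (UU vv))
    (hc : ∀ w, Computable (σ w)) : False := by
  have c0 : ∀ w, Cp σ fun _ : ℕ × ℕ => w := fun w => c_comp (hc w) Computable.snd
  have c1 : ∀ w, Cp σ fun p : ℕ × ℕ => w ^ p.1 := fun w => (c0 w).pow .fst
  have c2 : Cp σ fun p : ℕ × ℕ => cw p.1 ^ p.2 := ((((c0 _).mul (((c1 _).mul (c0 _)).mul (c1 _))).mul
    (c0 _)).mul (((c1 _).mul (c0 _)).mul (c1 _))).pow .snd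
  have c3 : Computable fun p : ℕ × ℕ × ℕ => σ (cw p.1 ^ p.2.1) p.2.2 :=
    c_comp (g := fun p : ℕ × ℕ × ℕ => ((p.1, p.2.1), p.2.2)) c2 (by fun_prop)
  unfold Computable at c3
  obtain ⟨c, hc⟩ := Code.exists_code.1 c3
  have k : ∀ k n x y, (∃ t, ev (encode c) t k n x = some y) ↔ y = σ (cw k ^ n) x := fun k n x y => by
    rw [← Part.mem_some_iff, show Part.some (σ (cw k ^ n) x) = c.eval (encode (k, n, x)) by
      rw [hc]; simp only [encodek]; simp, Code.evaln_complete]
    simp [ev, Option.mem_def]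
  generalize encode c = e at k
  have m : ∀ a b : ℕ, σ (cw (2 ^ (2 * e)) ^ a * cw (2 ^ (2 * e + 1)) ^ b) = 1 ↔ Ml (vv e) a b :=
    fun a b => by
      rw [h, ← pair_mem, tr_mem]
      intro p
      rw [map_mul, Equiv.Perm.mul_apply, cw_pow, cw_pow]
      simp [Prod.ext_iff, add_assoc, add_comm (Finsupp.single _ (a : ℤ))]
  have h1 : ∃ t, P1 e t := by
    have : σ (cw (2 ^ (2 * e)) ^ 1) ≠ 1 := fun c => by
      obtain ⟨j, a, b⟩ := (m 1 0).1 (by simpa using c)
      unfold vv at a b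
      split_ifs at a b <;> simp at a b <;> omega
    obtain ⟨x, hx⟩ := not_forall.1 fun c => this (Equiv.ext c)
    obtain ⟨t, ht⟩ := (k (2 ^ (2 * e)) 1 x _).2 rfl
    have := Code.evaln_mono (Nat.right_le_pair x t) ht
    refine ⟨Nat.pair x t, ?_⟩
    simp only [P1, Nat.unpair_pair, ev, Option.mem_def.1 this]
    exact ⟨rfl, fun c => hx (Option.some.inj c)⟩
  obtain ⟨p, q⟩ := Nat.find_spec h1
  obtain ⟨y, hy⟩ := Option.isSome_iff_exists.1 p
  rw [hy, (k _ _ _ _).1 ⟨_, hy⟩] at q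
  by_cases h2 : ∃ t, P2 e (Nat.find h1) t
  · have a := (m 1 ((Nat.find h1 + 1) * (Nat.find h2 + 1))).2
      ⟨1, by simp only [vv, h1, h2, dif_pos]; simp⟩
    have b := Function.IsFixedPt.perm_pow ((k _ _ _ _).1 h2).symm (Nat.find h2 + 1)
    have := DFunLike.congr_fun a (Nat.find h1).unpair.1
    rw [map_mul, pow_mul (cw _), map_pow _ _ (Nat.find h2 + 1), Equiv.Perm.mul_apply, b] at this
    exact q (congrArg some this)
  · have a := (m 0 (Nat.find h1 + 1)).2
      ⟨1, by simp only [vv, h1, h2, dif_pos, dif_neg, not_false_iff]; simp⟩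
    exact h2 ((k _ _ _ _).2 (by rw [pow_zero, one_mul] at a; rw [a]; rfl))

end Pool.Agent.H.MP_07717f_lc
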