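import Mathlib

namespace Pool.Agent.H.MP_07717f_lc

abbrev F := FreeGroup (Fin 3)

section
variable {V W : Type} [AddCommGroup V] [AddCommGroup W]

def gA : Equiv.Perm (V × V) :=
  ⟨fun p => (p.1 + p.2, p.2), fun p => (p.1 - p.2, p.2), fun p => by simp, fun p => by simp⟩

def gB (β : V) : Equiv.Perm (V × V) :=
  ⟨fun p => (p.1, p.2 + β), fun p => (p.1, p.2 - β), fun p => by simp, fun p => by simp⟩

def gT (τ : V ≃+ V) : Equiv.Perm (V × V) :=
  ⟨fun p => (p.1, τ p.2), fun p => (p.1, τ.symm p.2), fun p => by simp, fun p => by simp⟩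

def act (τ : V ≃+ V) (β : V) : F →* Equiv.Perm (V × V) := FreeGroup.lift ![gA, gB β, gT τ]

theorem semi {α β : Type} {φ : F →* Equiv.Perm α} {ψ : F →* Equiv.Perm β} {r : α → β}
    (h : ∀ i p, r (φ (.of i) p) = ψ (.of i) (r p)) (w : F) : ∀ p, r (φ w p) = ψ w (r p) := by
  induction w using FreeGroup.induction_on with
  | C1 => simp
  | of i => exact h i
  | inv_of i ih =>
    intro p
    rw [map_inv, map_inv, Equiv.Perm.eq_inv_iff_eq, ← ih]
    simp
  | mul a b ha hb => simp [ha, hb]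

theorem act_nat {τ : V ≃+ V} {β : V} {τ' : W ≃+ W} (ρ : V →+ W) (h : ∀ v, ρ (τ v) = τ' (ρ v))
    (w : F) (p : V × V) : Prod.map ρ ρ (act τ β w p) = act τ' (ρ β) w (Prod.map ρ ρ p) :=
  semi (fun i p => by fin_cases i <;> simp [act, gA, gB, gT, h, Prod.map]) w p

theorem act_add {τ : V ≃+ V} {β : V} (d : V) (w : F) (p : V × V) :
    act τ β w p + (d, 0) = act τ β w (p + (d, 0)) :=
  semi (r := (· + (d, 0))) (fun i p => by
    fin_cases i <;> simp [act, gA, gB, gT, add_right_comm]) w p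

def Kf (ζ : F → V) (U : AddSubgroup V) : Subgroup F where
  carrier := {w | ∀ u v, ζ (u * w * v) - ζ (u * v) ∈ U}
  one_mem' u v := by simp
  mul_mem' {a b} ha hb u v := by
    have := U.add_mem (ha u (b * v)) (hb u v)
    simpa [mul_assoc] using this
  inv_mem' {a} ha u v := by
    have := U.neg_mem (ha u (a⁻¹ * v))
    simpa [mul_assoc] using this

instance (ζ : F → V) (U : AddSubgroup V) : (Kf ζ U).Normal :=
  ⟨fun a ha g u v => by simpa [mul_assoc] using ha (u * g) (g⁻¹ * v)⟩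
end

abbrev V := ℤ →₀ ℤ

noncomputable def sh : V ≃+ V := Finsupp.domCongr (Equiv.addRight 1)

theorem sh_single (k c : ℤ) : sh (.single k c) = .single (k + 1) c := by
  simp [sh, Finsupp.equivMapDomain_single]

theorem sh_symm (k c : ℤ) : sh.symm (.single k c) = .single (k - 1) c := by
  rw [AddEquiv.symm_apply_eq, sh_single, sub_add_cancel]

noncomputable def ac : F →* Equiv.Perm (V × V) := act sh (.single 0 1)

noncomputable def Z (w : F) : V := (ac w 0).1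

theorem tr_mem {U : AddSubgroup V} {w : F} {d : V} (h : ∀ p, ac w p = p + (d, 0)) :
    w ∈ Kf Z U ↔ d ∈ U := by
  have : ∀ u v, Z (u * w * v) - Z (u * v) = d := fun u v => by
    simp only [Z, map_mul, Equiv.Perm.mul_apply, h]
    rw [ac, ← act_add]
    simp
  exact ⟨fun k => this 1 1 ▸ k 1 1, fun k u v => (this u v).symm ▸ k⟩

def cw (k : ℕ) : F := .of 0 * (.of 2 ^ k * .of 1 * (.of 2)⁻¹ ^ k) * (.of 0)⁻¹ *
  (.of 2 ^ k * (.of 1)⁻¹ * (.of 2)⁻¹ ^ k)

theorem cw_act (k : ℕ) (p : V × V) : ac (cw k) p = p + (.single k 1, 0) := by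
  have h : ∀ p, ac (.of 2 ^ k * .of 1 * (.of 2)⁻¹ ^ k) p = p + (0, .single k 1) := by
    induction k with
    | zero => intro p; simp [ac, act, gB, Prod.ext_iff]
    | succ k ih =>
      intro p
      rw [show (.of 2 ^ (k + 1) * .of 1 * (.of 2)⁻¹ ^ (k + 1) : F) =
        .of 2 * (.of 2 ^ k * .of 1 * (.of 2)⁻¹ ^ k) * (.of 2)⁻¹ by group, map_mul, map_mul,
        Equiv.Perm.mul_apply, Equiv.Perm.mul_apply, ih]
      simp [ac, act, gT, Prod.ext_iff, sh_single, Equiv.Perm.inv_def]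
  have h' : ∀ p, ac (.of 2 ^ k * (.of 1)⁻¹ * (.of 2)⁻¹ ^ k) p = p - (0, .single k 1) := fun p => by
    rw [show (.of 2 ^ k * (.of 1)⁻¹ * (.of 2)⁻¹ ^ k : F) = (.of 2 ^ k * .of 1 * (.of 2)⁻¹ ^ k)⁻¹ by
      group, map_inv, Equiv.Perm.inv_eq_iff_eq, h, sub_add_cancel]
  rw [cw, map_mul, map_mul, map_mul, Equiv.Perm.mul_apply, Equiv.Perm.mul_apply,
    Equiv.Perm.mul_apply, h, h']
  simp [ac, act, gA, Prod.ext_iff, Equiv.Perm.inv_def]
  abel

theorem cw_pow (k n : ℕ) (p : V × V) : ac (cw k ^ n) p = p + (.single k n, 0) := by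
  induction n with
  | zero => simp
  | succ n ih => simp [pow_succ', ih, cw_act, add_assoc, - map_pow, map_mul]

def Ml (v : ℕ × ℕ) (α β : ℤ) : Prop := ∃ j : ℤ, α = j * v.1 ∧ β = j * v.2

def UU (v : ℕ → ℕ × ℕ) : AddSubgroup V where
  carrier := {z | (∀ k, k ≠ 0 → (∀ j : ℕ, k ≠ 2 ^ j) → z k = 0) ∧
    ∀ e, Ml (v e) (z (2 ^ (2 * e))) (z (2 ^ (2 * e + 1)))}
  zero_mem' := ⟨fun _ _ _ => rfl, fun _ => ⟨0, by simp⟩⟩
  add_mem' {a b} ha hb := ⟨fun k h h' => by simp [ha.1 k h h', hb.1 k h h'], fun e => by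
    obtain ⟨i, h1, h2⟩ := ha.2 e
    obtain ⟨j, h3, h4⟩ := hb.2 e
    exact ⟨i + j, by simp [h1, h3, add_mul], by simp [h2, h4, add_mul]⟩⟩
  neg_mem' {a} ha := ⟨fun k h h' => by simp [ha.1 k h h'], fun e => by
    obtain ⟨i, h1, h2⟩ := ha.2 e
    exact ⟨-i, by simp [h1], by simp [h2]⟩⟩

theorem pair_mem {v : ℕ → ℕ × ℕ} {e : ℕ} {α β : ℤ} :
    (.single (2 ^ (2 * e)) α + .single (2 ^ (2 * e + 1)) β : V) ∈ UU v ↔ Ml (v e) α β := by
  have p : ∀ i j : ℕ, (2 : ℤ) ^ i = 2 ^ j ↔ i = j := fun i j =>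
    (pow_right_injective₀ (by norm_num) (by norm_num)).eq_iff
  refine ⟨fun h => by simpa [Finsupp.single_apply, p] using h.2 e, fun h =>
    ⟨fun k _ h => by simp [(h _).symm], fun i => ?_⟩⟩
  by_cases c : e = i
  · subst c
    simpa [Finsupp.single_apply, p] using h
  · refine ⟨0, ?_, ?_⟩ <;> simp only [Finsupp.add_apply, Finsupp.single_apply, p] <;>
      rw [if_neg (by omega), if_neg (by omega)] <;> simp

noncomputable def rho (q M : ℕ) : V →+ (ZMod q → ZMod M) :=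
  Finsupp.liftAddHom fun k => zmultiplesHom _ (Pi.single (k : ZMod q) 1)

theorem rho_ev {q M : ℕ} {p : V} {k : ℤ} (h : ∀ i, p i ≠ 0 → (i : ZMod q) = k → i = k) :
    rho q M p k = p k := by
  rw [rho, Finsupp.liftAddHom_apply, Finsupp.sum, Finset.sum_apply, Finset.sum_eq_single k]
  · simp
  · intro i hi e
    simp [Pi.single_eq_of_ne (show (k : ZMod q) ≠ i from fun c => e (h i (by simpa using hi) c.symm))]
  · intro c
    simp [Finsupp.notMem_support_iff.1 c]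

def shq (q M : ℕ) : (ZMod q → ZMod M) ≃+ (ZMod q → ZMod M) :=
  ⟨⟨fun f i => f (i - 1), fun f i => f (i + 1), fun f => by simp, fun f => by simp⟩, fun _ _ => rfl⟩

theorem rho_sh (q M : ℕ) (p : V) : rho q M (sh p) = shq q M (rho q M p) := by
  induction p using Finsupp.induction_linear with
  | zero => simp
  | add a b ha hb => simp [ha, hb]
  | single k c =>
    funext i
    simp [sh_single, rho, shq, Pi.single_apply, sub_eq_iff_eq_add]

theorem sep (B s : ℕ) (hs : B < 2 ^ s) {k i : ℤ} (h0 : k ≠ 0) (hk : |k| ≤ B)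
    (hi : |i| ≤ B ∨ ∃ j : ℕ, i = 2 ^ j) (e : (i : ZMod (2 ^ (s + 1))) = k) : i = k := by
  rw [ZMod.intCast_eq_intCast_iff_dvd_sub] at e
  have hs' : (B : ℤ) < 2 ^ s := by exact_mod_cast hs
  push_cast at e
  have key : ∀ i : ℤ, |i| ≤ 2 ^ s → 2 ^ (s + 1) ∣ k - i → i = k := fun i a b =>
    (sub_eq_zero.1 (Int.eq_zero_of_abs_lt_dvd b (by
      have := abs_sub k i
      rw [pow_succ]
      omega))).symm
  rcases hi with hi | ⟨j, rfl⟩
  · exact key i (by omega) e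
  · rcases le_or_gt j s with c | c
    · exact key _ (by rw [abs_of_pos (by positivity)]; exact pow_le_pow_right₀ (by norm_num) c) e
    · exact absurd (key 0 (by simp) (by simpa using e.add (pow_dvd_pow 2 c))).symm h0

theorem ex_theta {v : ℕ → ℕ × ℕ} (hv : ∀ e, (v e).1 = 0 ∨ (v e).1 = 1) {D : V} (h : D ∉ UU v) :
    ∃ (k l a b : ℤ) (M : ℕ), k ≠ 0 ∧ l ≠ 0 ∧ M ≠ 0 ∧ ¬ (M : ℤ) ∣ a * D k + b * D l ∧
      ∀ u ∈ UU v, (M : ℤ) ∣ a * u k + b * u l := by
  have nd : ∀ x : ℤ, x ≠ 0 → ¬ ((x.natAbs + 1 : ℕ) : ℤ) ∣ x := fun x h c =>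
    h (Int.eq_zero_of_abs_lt_dvd c (by simp))
  rcases not_and_or.1 h with h | h
  · push Not at h
    obtain ⟨k, h1, h2, h3⟩ := h
    exact ⟨k, k, 1, 0, (D k).natAbs + 1, h1, h1, Nat.succ_ne_zero _, by simpa using nd _ h3,
      fun u hu => by simp [hu.1 k h1 h2]⟩
  obtain ⟨e, h⟩ := not_forall.1 h
  suffices ∃ (a b : ℤ) (M : ℕ), M ≠ 0 ∧ ¬ (M : ℤ) ∣ a * D (2 ^ (2 * e)) + b * D (2 ^ (2 * e + 1)) ∧
      (M : ℤ) ∣ a * (v e).1 + b * (v e).2 by
    obtain ⟨a, b, M, h1, h2, h3⟩ := this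
    refine ⟨_, _, a, b, M, by positivity, by positivity, h1, h2, fun u hu => ?_⟩
    obtain ⟨j, p, q⟩ := hu.2 e
    rw [p, q, show a * (j * (v e).1) + b * (j * (v e).2) = (a * (v e).1 + b * (v e).2) * j by ring]
    exact h3.mul_right j
  generalize D (2 ^ (2 * e)) = α at h
  generalize D (2 ^ (2 * e + 1)) = β at h
  rcases hv e with c | c
  · by_cases a : α = 0
    · by_cases n : (v e).2 = 0
      · exact ⟨0, 1, β.natAbs + 1, Nat.succ_ne_zero _, by
          simpa using nd β fun b => h ⟨0, by simp [a], by simp [b]⟩, by simp [n]⟩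
      · exact ⟨0, 1, _, n, by
          simpa using fun ⟨j, b⟩ => h ⟨j, by simp [a, c], by rw [b, mul_comm]⟩, by simp⟩
    · exact ⟨1, 0, α.natAbs + 1, Nat.succ_ne_zero _, by simpa using nd α a, by simp [c]⟩
  · exact ⟨-(v e).2, 1, _, Nat.succ_ne_zero _, nd _ fun b => h ⟨α, by simp [c], by linarith⟩,
      by simp [c]⟩

theorem resfin {v : ℕ → ℕ × ℕ} (hv : ∀ e, (v e).1 = 0 ∨ (v e).1 = 1) (g : F ⧸ Kf Z (UU v))
    (hg : g ≠ 1) : ∃ H : Subgroup (F ⧸ Kf Z (UU v)), H.index ≠ 0 ∧ g ∉ H := by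
  obtain ⟨w, rfl⟩ := QuotientGroup.mk_surjective g
  rw [Ne, QuotientGroup.eq_one_iff] at hg
  obtain ⟨x, y, h⟩ : ∃ x y, Z (x * w * y) - Z (x * y) ∉ UU v := by
    by_contra c
    push Not at c
    exact hg c
  generalize hD : Z (x * w * y) - Z (x * y) = D at h
  obtain ⟨k, l, a, b, M, k0, l0, M0, h1, h2⟩ := ex_theta hv h
  obtain ⟨B, b1, b2, b3⟩ : ∃ B : ℕ, |k| ≤ B ∧ |l| ≤ B ∧ ∀ i, D i ≠ 0 → |i| ≤ B := by
    obtain ⟨B, hB⟩ := ((insert k (insert l D.support)).image Int.natAbs).bddAbove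
    have : ∀ i ∈ insert k (insert l D.support), |i| ≤ (B : ℤ) := fun i hi => by
      rw [← Int.natCast_natAbs]
      exact_mod_cast hB (Finset.mem_coe.2 (Finset.mem_image_of_mem _ hi))
    exact ⟨B, this _ (by simp), this _ (by simp), fun i hi => this _ (by simp [hi])⟩
  have : NeZero M := ⟨M0⟩
  let Γ : (ZMod (2 ^ (B + 1)) → ZMod M) →+ ZMod M :=
    .mk' (fun f => a * f k + b * f l) fun _ _ => by simp only [Pi.add_apply]; ring
  let Θ : V →+ ZMod M := Γ.comp (rho (2 ^ (B + 1)) M)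
  have t : ∀ p : V, (∀ i, p i ≠ 0 → |i| ≤ B ∨ ∃ j : ℕ, i = 2 ^ j) →
      (Θ p = 0 ↔ (M : ℤ) ∣ a * p k + b * p l) := fun p hp => by
    rw [← ZMod.intCast_zmod_eq_zero_iff_dvd]
    simp [Θ, Γ, rho_ev fun i hi => sep B B B.lt_two_pow_self k0 b1 (hp i hi),
      rho_ev fun i hi => sep B B B.lt_two_pow_self l0 b2 (hp i hi)]
  have le : Kf Z (UU v) ≤ Kf Z Θ.ker := fun w hw u v => (t _ fun i hi => by
    by_contra c
    push Not at c
    exact hi ((hw u v).1 i (fun e => by simp [e] at c; omega) c.2)).2 (h2 _ (hw u v))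
  refine ⟨(Kf Z Θ.ker).map (QuotientGroup.mk' _), ?_, fun ⟨w', h3, h4⟩ => h1 ?_⟩
  · rw [Subgroup.index_map_eq _ (QuotientGroup.mk'_surjective _) (by simpa using le)]
    let φ := act (shq (2 ^ (B + 1)) M) (rho _ M (.single 0 1))
    have n : ∀ w, rho _ M (Z w) = (φ w 0).1 := fun w =>
      congrArg Prod.fst ((act_nat _ (rho_sh _ M) w 0).trans (by simp [φ, Prod.map]))
    refine (Subgroup.finiteIndex_of_le (H := φ.ker) (K := Kf Z Θ.ker) fun w hw u v => ?_).1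
    have : rho (2 ^ (B + 1)) M (Z (u * w * v) - Z (u * v)) = 0 := by
      simp [n, MonoidHom.mem_ker.1 hw]
    simp only [AddMonoidHom.mem_ker, Θ, AddMonoidHom.comp_apply, this, map_zero]
  · have := mul_mem h3 (le (QuotientGroup.eq.1 h4))
    rw [mul_inv_cancel_left] at this
    exact (t D fun i hi => .inl (b3 i hi)).1 (hD ▸ this x y)

end Pool.Agent.H.MP_07717f_lc
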